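import Pool.Agent.helper41.NU.A1
import Pool.Agent.helper63.NU.Stub.M2a
import Pool.Agent.helper63.NU.Stub.M2b
import Pool.Agent.helper63.NU.Stub.M2c
import Pool.Agent.helper63.NU.Stub.M2d
import Pool.Agent.helper63.NU.Stub.M2e
import Pool.Agent.helper63.NU.Stub.M2f

set_option autoImplicit false
set_option linter.all false

/-! Module M2g: adjoint matrices (helper19). -/

open MeasureTheory Filter Topology Set
open scoped ContDiff Manifold Matrix ENNReal ComplexOrder

noncomputable section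

namespace Pool.Agent.helper63.NU

variable {n : ℕ}

namespace M2g

/-- the coefficients of the linear form `w . (y - y0)` -/
def cw (w y0 : E n) : E (n + 1) := Fin.cons (-(∑ j, w j * y0 j)) w

theorem ins0_zero (y : E n) : ins 0 y 0 = 1 := by simp [ins]

theorem ins0_succ (y : E n) (j : Fin n) : ins 0 y j.succ = y j := by
  have := Fin.insertNth_apply_succAbove (α := fun _ => ℂ) (0 : Fin (n + 1)) 1 y j
  rwa [Fin.succAbove_zero] at this

theorem lf0 (c : E (n + 1)) (y : E n) : lf c 0 y = c 0 + ∑ j : Fin n, c j.succ * y j := by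
  simp only [lf, Fin.sum_univ_succ, ins0_zero, ins0_succ, mul_one]

theorem cw_zero (w y0 : E n) : cw w y0 0 = -(∑ j, w j * y0 j) := rfl

theorem cw_succ (w y0 : E n) (j : Fin n) : cw w y0 j.succ = w j := rfl

theorem lf_cw (w y0 y : E n) : lf (cw w y0) 0 y = ∑ j, w j * (y j - y0 j) := by
  rw [lf0, cw_zero]
  simp only [cw_succ, mul_sub, Finset.sum_sub_distrib]
  ring

theorem lf_smul (t : ℂ) (c : E (n + 1)) (i : Fin (n + 1)) (y : E n) :
    lf (t • c) i y = t * lf c i y := by
  simp only [lf, Pi.smul_apply, smul_eq_mul, Finset.mul_sum, mul_assoc]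

theorem lf_sum {ι : Type*} (s : Finset ι) (c : ι → E (n + 1)) (i : Fin (n + 1)) (y : E n) :
    lf (∑ a ∈ s, c a) i y = ∑ a ∈ s, lf (c a) i y := by
  simp only [lf, Finset.sum_apply, Finset.sum_mul]
  rw [Finset.sum_comm]

theorem lf_inj {c d : E (n + 1)} (h : ∀ y, lf c 0 y = lf d 0 y) : c = d := by
  have h0 : c 0 = d 0 := by
    have := h 0
    simpa [lf0] using this
  funext a
  refine Fin.cases h0 (fun j => ?_) a
  have := h (Pi.single j 1)
  simp only [lf0, h0] at this
  have h1 : ∀ c : E (n + 1), ∑ k : Fin n, c k.succ * (Pi.single j 1 : E n) k = c j.succ := by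
    intro c
    rw [Finset.sum_eq_single j]
    · simp
    · intro b _ hb; simp [Pi.single_eq_of_ne hb]
    · intro hh; exact absurd (Finset.mem_univ _) hh
  rw [h1, h1] at this
  exact add_left_cancel this

section abstractP

variable {V : Type*} [AddCommGroup V] [Module ℂ V]

/-- sesquilinear and Hermitian -/
structure Herm (P : V → V → ℂ) : Prop where
  add : ∀ c d c', P (c + d) c' = P c c' + P d c'
  smul : ∀ (t : ℂ) c c', P (t • c) c' = t * P c c'
  conj : ∀ c c', (starRingEnd ℂ) (P c c') = P c' c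

theorem Herm.zero {P : V → V → ℂ} (hP : Herm P) (c' : V) : P 0 c' = 0 := by
  have := hP.smul 0 0 c'
  simpa using this

theorem Herm.sum {P : V → V → ℂ} (hP : Herm P) {ι : Type*} (s : Finset ι) (c : ι → V) (c' : V) :
    P (∑ a ∈ s, c a) c' = ∑ a ∈ s, P (c a) c' := by
  classical
  induction s using Finset.induction_on with
  | empty => simp [hP.zero]
  | insert a s ha ih => rw [Finset.sum_insert ha, Finset.sum_insert ha, hP.add, ih]

theorem Herm.smul_right {P : V → V → ℂ} (hP : Herm P) (t : ℂ) (c c' : V) :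
    P c (t • c') = (starRingEnd ℂ) t * P c c' := by
  rw [← hP.conj (t • c') c, hP.smul, map_mul, hP.conj]

theorem ext_of {P : V → V → ℂ} {m : ℕ} {A : Fin m → V}
    (hA : ∀ c, c = ∑ a, P c (A a) • A a) {x y : V} (h : ∀ c', P x c' = P y c') : x = y := by
  rw [hA x, hA y]
  exact Finset.sum_congr rfl fun a _ => by rw [h]

theorem adj_trace {P F : V → V → ℂ} (hP : Herm P) (hF : Herm F) {m : ℕ} {A : Fin m → V}
    (hA : ∀ c, c = ∑ a, P c (A a) • A a) {B1 B2 : V → V}
    (hB : ∀ c c', P (B2 c) c' = P c (B1 c')) :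
    ∑ a, F (B2 (A a)) (A a) = (starRingEnd ℂ) (∑ a, F (B1 (A a)) (A a)) := by
  have h1 : ∀ x c', F x c' = ∑ b, P x (A b) * F (A b) c' := by
    intro x c'
    conv_lhs => rw [hA x]
    rw [hF.sum]
    exact Finset.sum_congr rfl fun b _ => hF.smul _ _ _
  have h2 : ∀ a, (starRingEnd ℂ) (F (B1 (A a)) (A a))
      = ∑ b, P (B2 (A b)) (A a) * F (A a) (A b) := by
    intro a
    rw [h1 (B1 (A a)), map_sum]
    refine Finset.sum_congr rfl fun b _ => ?_
    rw [map_mul, hP.conj, hF.conj, hB]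
  rw [map_sum, Finset.sum_congr rfl fun a _ => h2 a, Finset.sum_comm]
  exact Finset.sum_congr rfl fun a _ => h1 _ _

end abstractP

theorem Fc_herm (ψ : Fam n (CP n) ℝ) (x : CP n) : Herm (fun c c' => Fc ψ c c' x) :=
  ⟨fun c d c' => Fc_add ψ c d c' x, fun t c c' => Fc_smul ψ t c c' x, fun c c' => Fc_conj ψ c c' x⟩

theorem int_herm {ψ : Fam n (CP n) ℝ} (hψ : IsWeight 1 ψ) {μ : Measure (CP n)}
    (hμ : IsDens μ ψ) : Herm (fun c c' => ∫ x, Fc ψ c c' x ∂μ) := by
  refine ⟨fun c d c' => ?_, fun t c c' => ?_, fun c c' => ?_⟩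
  · simp only [Fc_add]
    exact integral_add (Fc_integrable hψ hμ c c') (Fc_integrable hψ hμ d c')
  · simp only [Fc_smul]
    exact integral_const_mul _ _
  · show (starRingEnd ℂ) (∫ x, Fc ψ c c' x ∂μ) = ∫ x, Fc ψ c' c x ∂μ
    rw [← integral_conj]
    simp only [Fc_conj]

/-- the matrix of the vector field `(w . (y - y0)) (y - y0)` -/
def Bw (w y0 : E n) : Matrix (Fin (n + 1)) (Fin (n + 1)) ℂ :=
  Matrix.of fun a b => -(ins 0 y0 a * cw w y0 b)

theorem Bw_mulVec (w y0 : E n) (z : E (n + 1)) (a : Fin (n + 1)) :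
    (Bw w y0).mulVec z a = -(∑ b, cw w y0 b * z b) * ins 0 y0 a := by
  simp only [Bw, Matrix.mulVec, dotProduct, Matrix.of_apply]
  rw [← Finset.sum_neg_distrib, Finset.sum_mul]
  exact Finset.sum_congr rfl fun b _ => by ring

theorem xi_Bw (w y0 y : E n) (j : Fin n) :
    xi (Bw w y0) 0 y j = (∑ k, w k * (y k - y0 k)) * (y j - y0 j) := by
  have h : ∑ b, cw w y0 b * ins 0 y b = ∑ k, w k * (y k - y0 k) := by
    rw [← lf_cw w y0 y]; rfl
  rw [xi, Bw_mulVec, Bw_mulVec, h, Fin.succAbove_zero, ins0_succ, ins0_zero]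
  ring

theorem xi_diff (B : Matrix (Fin (n + 1)) (Fin (n + 1)) ℂ) (i : Fin (n + 1)) :
    Differentiable ℂ (xi B i) := by
  have h1 : Differentiable ℂ (fun y : E n => ins i y) :=
    (CP.contDiff_ins (𝕜 := ℂ) (m := 1) i).differentiable (by simp)
  have h2 : ∀ a, Differentiable ℂ (fun y : E n => (B.mulVec (ins i y)) a) := by
    intro a
    simp only [Matrix.mulVec, dotProduct]
    exact Differentiable.fun_sum fun b _ => ((differentiable_pi.1 h1) b).const_mul _
  rw [differentiable_pi]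
  intro j
  exact (h2 _).sub ((differentiable_apply j).mul (h2 _))

theorem dz_coord (j : Fin n) (y0 y : E n) : dz j (fun z : E n => z j - y0 j) y = 1 := by
  have hd : DifferentiableAt ℂ (fun z : E n => z j - y0 j) y :=
    ((differentiable_apply j).sub_const _) y
  rw [dz_hol hd]
  have : HasFDerivAt (fun z : E n => z j - y0 j)
      (ContinuousLinearMap.proj (R := ℂ) (φ := fun _ : Fin n => ℂ) j) y :=
    (ContinuousLinearMap.proj (R := ℂ) (φ := fun _ : Fin n => ℂ) j).hasFDerivAt.sub_const _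
  rw [this.fderiv]
  simp

theorem dz_coord' (j k : Fin n) (hk : k ≠ j) (y0 y : E n) :
    dz j (fun z : E n => z k - y0 k) y = 0 := by
  have hd : DifferentiableAt ℂ (fun z : E n => z k - y0 k) y :=
    ((differentiable_apply k).sub_const _) y
  rw [dz_hol hd]
  have : HasFDerivAt (fun z : E n => z k - y0 k)
      (ContinuousLinearMap.proj (R := ℂ) (φ := fun _ : Fin n => ℂ) k) y :=
    (ContinuousLinearMap.proj (R := ℂ) (φ := fun _ : Fin n => ℂ) k).hasFDerivAt.sub_const _
  rw [this.fderiv]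
  simp [Pi.single_eq_of_ne hk]

theorem diff_coord (k : Fin n) (y0 y : E n) :
    DifferentiableAt ℝ (fun z : E n => z k - y0 k) y :=
  ((differentiable_apply (𝕜 := ℝ) k).sub_const _) y

theorem dz_xi_Bw (w y0 y : E n) (j : Fin n) :
    dz j (fun z => xi (Bw w y0) 0 z j) y
      = w j * (y j - y0 j) + ∑ k, w k * (y k - y0 k) := by
  have h0 : (fun z => xi (Bw w y0) 0 z j)
      = fun z => (∑ k, w k * (z k - y0 k)) * (z j - y0 j) := by
    funext z; exact xi_Bw w y0 z j
  have hs : ∀ k, DifferentiableAt ℝ (fun z : E n => w k * (z k - y0 k)) y :=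
    fun k => (diff_coord k y0 y).const_mul _
  rw [h0, dz_mul (DifferentiableAt.fun_sum fun k _ => hs k) (diff_coord j y0 y),
    dz_sum _ (fun k _ => hs k), dz_coord, mul_one]
  congr 2
  rw [Finset.sum_eq_single j]
  · rw [dz_const_mul, dz_coord, mul_one]
  · intro b _ hb
    rw [dz_const_mul, dz_coord' j b hb, mul_zero]
  · intro hh; exact absurd (Finset.mem_univ _) hh

end M2g

open M2g

/-- `∂ρ = 0` for `ρ = ∑_a |l_a|² e^{-ψ/(n+1)}`, in the chart `0` -/
theorem rho_dz (hn : 0 < n) {ψ : Fam n (CP n) ℝ} (hψ : IsPos 1 ψ) {μ : Measure (CP n)}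
    (hμ : IsDens μ ψ) {c0 : ℝ} (hdl : ∀ x, dl ψ x = c0)
    {A : Matrix (Fin (n + 1)) (Fin (n + 1)) ℂ} (hA : IsUnit A.det)
    (hA1 : ∀ a b, ∫ x, Fc ψ (A a) (A b) x ∂μ = if a = b then 1 else 0)
    (hA2 : ∀ c : E (n + 1), c = ∑ a, (∫ x, Fc ψ c (A a) x ∂μ) • A a) (y : E n) (j : Fin n) :
    dz j (fun z => ∑ a, Fc ψ (A a) (A a) ((CP.chart 0).symm z)) y = 0 := by
  set d : E n := fun j => dz j (fun z => ∑ a, Fc ψ (A a) (A a) ((CP.chart 0).symm z)) y with hd
  have hW : IsWeight 1 ψ := hψ.toIsWeight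
  have hmem : ∀ i, CP.chart i ∈ atlas (E n) (CP n) := fun i => mem_range_self i
  set P : E (n + 1) → E (n + 1) → ℂ := fun c c' => ∫ x, Fc ψ c c' x ∂μ with hPdef
  have hP : Herm P := int_herm hW hμ
  set F : E (n + 1) → E (n + 1) → ℂ := fun c c' => Fc ψ c c' ((CP.chart 0).symm y) with hFdef
  have hF : Herm F := Fc_herm ψ _
  -- the potential
  obtain ⟨v, hv, hvB⟩ := exists_vB hW (Bw d y)
  have hvf : ∀ i, (fun z => v ((CP.chart i).symm z)) = fun z =>
      ∑ l, (xi (Bw d y) i z l * dz l (fun z => ((ψ (CP.chart i) z : ℝ) : ℂ)) z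
        - dz l (fun z => xi (Bw d y) i z l) z) := fun i => funext fun z => hvB i z
  have hpot := fun i (z : E n) => vec_pot (isOpen_univ) (ψ := ψ (CP.chart i))
    (hψ.smooth _ (hmem i)) (fun z hz => hψ.pos _ (hmem i) z hz)
    (a := xi (Bw d y) i) (xi_diff _ i).differentiableOn (mem_univ z)
  have hbox : ∀ i z, bx (ψ (CP.chart i)) (fun z => v ((CP.chart i).symm z)) z
      = v ((CP.chart i).symm z) := by
    intro i z
    rw [hvf i, (hpot i z).2, hvB i z]
  have ha : ∀ z j, xi (Bw d y) 0 z j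
      = rs (lev (ψ (CP.chart 0)) z) (dbv (fun z => v ((CP.chart 0).symm z)) z) j := by
    intro z j
    rw [hvf 0, (hpot 0 z).1 j]
  obtain ⟨B1, h11, h12, h13⟩ := exists_matrix hn hψ hμ hv hbox ha (xi_diff _ 0)
  -- the conjugate
  have hvc : Sm n (fun x => (starRingEnd ℂ) (v x)) := by
    intro e he
    exact Complex.conjCLE.contDiff.comp_contDiffOn (hv e he)
  have hboxc : ∀ i z, bx (ψ (CP.chart i)) (fun z => (starRingEnd ℂ) (v ((CP.chart i).symm z))) z
      = (starRingEnd ℂ) (v ((CP.chart i).symm z)) := by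
    intro i z
    rw [box_conj hψ hdl hv (hmem i) (mem_univ z), hbox]
  have hhol : Differentiable ℂ (fun (z : E n) (j : Fin n) => rs (lev (ψ (CP.chart 0)) z)
      (dbv (fun z => (starRingEnd ℂ) (v ((CP.chart 0).symm z))) z) j) := by
    rw [differentiable_pi]
    intro j
    have := eig_hol hψ hμ hvc (fun e he z hz => by
      obtain ⟨i, rfl⟩ := he
      exact hboxc i z) (CP.chart 0) (hmem 0) j
    exact differentiableOn_univ.1 this
  set a' : E n → E n := fun (z : E n) (j : Fin n) => rs (lev (ψ (CP.chart 0)) z)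
      (dbv (fun z => (starRingEnd ℂ) (v ((CP.chart 0).symm z))) z) j with ha'
  obtain ⟨B2, h21, h22, h23⟩ := exists_matrix hn hψ hμ hvc hboxc (a := a')
    (fun z j => rfl) hhol
  -- `B2` is the adjoint of `B1`
  have hadj : ∀ c c', P (B2.mulVec c) c' = P c (B1.mulVec c') := by
    intro c c'
    rw [← hP.conj (B1.mulVec c') c]
    show (∫ x, Fc ψ (B2.mulVec c) c' x ∂μ) = (starRingEnd ℂ) (∫ x, Fc ψ (B1.mulVec c') c x ∂μ)
    rw [h23, h13, map_mul, ← integral_conj]
    congr 1
    · simp only [map_div₀, map_add, map_one, map_natCast, map_ofNat]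
    · refine integral_congr_ae (Eventually.of_forall fun x => ?_)
      simp only [map_mul, Fc_conj]
  -- `B1`
  have hn1 : ((n : ℂ) + 1) ≠ 0 := by exact_mod_cast Nat.succ_ne_zero n
  have hdiv : ∀ z : E n, (∑ j, dz j (fun z => xi (Bw d y) 0 z j) z)
      = (n + 1) * ∑ k, d k * (z k - y k) := by
    intro z
    simp only [dz_xi_Bw, Finset.sum_add_distrib, Finset.sum_const, Finset.card_univ,
      Fintype.card_fin, nsmul_eq_mul]
    ring
  have hB1 : ∀ c, B1.mulVec c = (-(lf c 0 y)) • cw d y := by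
    intro c
    refine lf_inj fun z => ?_
    rw [h11 c z, hdiv z, lf_smul, lf_cw, mul_div_cancel_left₀ _ hn1]
    simp only [xi_Bw]
    rw [lf0, lf0, show ∑ x : Fin n, (∑ k, d k * (z k - y k)) * (z x - y x) * c x.succ
      = (∑ k, d k * (z k - y k)) * (∑ x : Fin n, c x.succ * z x - ∑ x : Fin n, c x.succ * y x) by
        rw [← Finset.sum_sub_distrib, Finset.mul_sum]
        exact Finset.sum_congr rfl fun x _ => by ring]
    ring
  -- the vector `u0`
  obtain ⟨u0, hu0⟩ : ∃ u0 : E (n + 1), ∀ c, P c u0 = lf c 0 y := by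
    refine ⟨∑ a, (starRingEnd ℂ) (lf (A a) 0 y) • A a, fun c => ?_⟩
    rw [← hP.conj, hP.sum, map_sum]
    conv_rhs => rw [hA2 c]
    rw [lf_sum]
    refine Finset.sum_congr rfl fun a _ => ?_
    rw [hP.smul, map_mul, Complex.conj_conj, hP.conj, lf_smul, mul_comm]
  have hB2 : ∀ c, B2.mulVec c = (-(P c (cw d y))) • u0 := by
    intro c
    refine ext_of (P := P) (A := fun a => A a) hA2 fun c' => ?_
    show P (B2.mulVec c) c' = P _ c'
    rw [hadj, hB1, hP.smul_right, hP.smul, map_neg, ← hu0 c', hP.conj]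
    ring
  -- the key identity
  have hk1 : ∑ j, a' y j * d j = -(P (cw d y) (cw d y) * P u0 u0) := by
    have := h21 (cw d y) y
    rw [hB2, lf_smul, lf_cw] at this
    simp only [sub_self, mul_zero, Finset.sum_const_zero, sub_zero, cw_succ] at this
    rw [← this, hu0]
    ring
  have hdiff : ∀ c c', DifferentiableAt ℝ (fun z => Fc ψ c c' ((CP.chart 0).symm z)) y := by
    intro c c'
    have := Fc_sm hW c c' (CP.chart 0) (hmem 0)
    exact ((contDiffOn_univ.1 this).differentiable (by simp)) y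
  have hdj : ∀ j, d j = ∑ a, dz j (fun z => Fc ψ (A a) (A a) ((CP.chart 0).symm z)) y :=
    fun j => dz_sum _ (fun a _ => hdiff _ _) j
  have hk2 : ∑ j, a' y j * d j = 0 := by
    have e1 : ∑ j, a' y j * d j = ∑ a, (F (B2.mulVec (A a)) (A a)
        - (starRingEnd ℂ) (v ((CP.chart 0).symm y)) * F (A a) (A a) / (n + 1)) := by
      simp only [hdj, Finset.mul_sum]
      rw [Finset.sum_comm]
      exact Finset.sum_congr rfl fun a _ => h22 (A a) (A a) y
    have e2 : ∀ a, F (B1.mulVec (A a)) (A a)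
        = v ((CP.chart 0).symm y) * F (A a) (A a) / (n + 1) := by
      intro a
      have := h12 (A a) (A a) y
      simp only [xi_Bw, sub_self, mul_zero, zero_mul, Finset.sum_const_zero] at this
      exact (sub_eq_zero.1 this.symm)
    rw [e1, Finset.sum_sub_distrib,
      adj_trace hP hF hA2 (B1 := fun c => B1.mulVec c) (B2 := fun c => B2.mulVec c) hadj,
      Finset.sum_congr rfl fun a _ => e2 a, map_sum, ← Finset.sum_sub_distrib]
    refine Finset.sum_eq_zero fun a _ => ?_
    rw [map_div₀, map_mul, hF.conj]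
    simp
  have hu0ne : u0 ≠ 0 := by
    intro h
    have h1 := hu0 (Pi.single 0 1)
    rw [h, ← hP.conj, hP.zero, map_zero, lf0] at h1
    simp at h1
  have hPne : ∀ c, c ≠ 0 → P c c ≠ 0 := by
    intro c hc h
    have := Fc_pos hW hμ hc
    rw [show (∫ x, Fc ψ c c x ∂μ) = P c c from rfl, h] at this
    simp at this
  have hcw : cw d y = 0 := by
    by_contra hne
    have := hk1.symm.trans hk2
    rw [neg_eq_zero, mul_eq_zero] at this
    exact this.elim (hPne _ hne) (hPne _ hu0ne)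
  have : cw d y j.succ = 0 := by rw [hcw]; rfl
  exact this

end Pool.Agent.helper63.NU
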